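import Pool.Agent.K3h85.PG.In

/-!
# Homologically trivial cycles of fixed codimension on the powers of a variety

Let `X` be a smooth projective variety with `H^i(X) = 0` for the odd `i < 2 r`. Then the same holds
for the powers of `X`, so that the question asks whether the homologically trivial cycles of
codimension `r` (rational coefficients) on all powers of `X` vanish. If this is so for the powers
`X ^ j` with `j < m`, then the space of these cycles on `X ^ N` has dimension at least `C(N, m)`
times the one for `X ^ m`; the answer is positive in codimension `r` for all powers if and only if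
the limit inferior of the dimension for `X ^ N` divided by `N ^ m` is zero.

Proof: one uses the operators which replace a coordinate by a fixed point. They act as zero or as the
identity on the pull-backs of the cycles on `X ^ m` under the coordinate projections
`X ^ N ⟶ X ^ m`.
-/

open CategoryTheory AlgebraicGeometry

universe u v w

namespace Pool.Agent.Results.MP_32dfd1_ag.FixedCodimension

open Pool.Agent.H914 Pool.Agent.H914.VarClass Pool.Agent.H914.VarClass.Obj Pool.Agent.W492.BB
  Pool.Agent.TH133 Pool.Agent.K3h85.PG
open Pool.Agent.V1151.DG (pw)

/-- **Homologically trivial cycles of codimension `r > 0` on the powers of a variety** (for the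
problem: `k` is the field of algebraic numbers, `𝒱` the class of all smooth projective varieties,
`C` the Chow groups with rational coefficients, `H` the Betti cohomology; `pw X n = X ^ (n + 1)`). -/
theorem result {k : Type u} [Field k] {𝒱 : VarClass k} {C : TheoryData.{u, v, 0} 𝒱 ℚ}
    [IsChowProj C] {K : Type w} [Field K] {H : WeilTheoryData.{u, v, w} C K} [IsWeilProj H]
    (X : 𝒱.Obj) {r : ℕ} (hr : 0 < r) :
    (NoOddBelow H r X → ∀ n, NoOddBelow H r (pw X n)) ∧
      ∀ m : ℕ, (∀ j < m, InjectiveIn H r (pw X j)) →
        (∀ d : ℕ, HomInGE H r (pw X m) d → ∀ n : ℕ,
          HomInGE H r (pw X n) ((n + 1).choose (m + 1) * d)) ∧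
        ((∀ n, InjectiveIn H r (pw X n)) ↔ SlowGrowthIn H r m X) :=
  ⟨fun h n => noOddBelow_pw h n, fun m hm =>
    ⟨fun d hd n => homIn_choose hr hm hd n, growthIn_iff hr hm⟩⟩

end Pool.Agent.Results.MP_32dfd1_ag.FixedCodimension
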