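import Pool.Agent.K3h70.AC.Main

/-!
# Homologically trivial cycles on all powers of a variety, and relations between permutations

The question asks whether `CH^r_hom(Y)_ℚ = 0` for smooth projective `Y` over the algebraic numbers with
`H^(2r-1)(Y) = 0`. Let `X` be smooth projective of dimension `d` without odd cohomology, and let `b` be
the sum of its Betti numbers. No power of `X` has odd cohomology, so the question asks in particular
whether all homologically trivial cycles on all powers of `X` vanish.

`C` is a `ℚ`-linear, idempotent complete, rigid symmetric monoidal category whose unit object has the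
endomorphisms `ℚ` (`UnitQ`), with a realisation `R` in finite-dimensional super vector spaces over a
field `K` (`SuperRealisation`). For the problem: `C` is the category of Chow motives over the algebraic
numbers with rational coefficients, `R` is singular cohomology with its parity, and `M = h(X)`; then
`b = realDim R M` is the dimension of the realisation, `tp M n = h(X^n)`, `End (tp M n)` is
`CH^(dn)(X^n × X^n)_ℚ`, and `permDim M n` is the dimension of the span of the graphs of the `n!`
permutations of the factors of `X^n` in it.

Theorem. Consider the following two conditions.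
(i) For one `n ≤ 2 b + 3` the graphs of the `n!` permutations of the factors of `X^n` are linearly dependent
in `CH^(dn)(X^n × X^n)_ℚ`.
(ii) The dimension of `CH^(dn)_hom(X^n × X^n)_ℚ` is at most `D β ^ n` for infinitely many `n`, for some
`D` and some `β < (b + 2) ^ 2`.

(1) If (i) or (ii) holds then all homologically trivial correspondences of degree `0` from `X^n` to itself
are nilpotent, for all `n`.
(2) Let `H(X)` be spanned by algebraic classes. Then (i) and (ii) are equivalent, and equivalent to the
vanishing of all homologically trivial cycles on all powers of `X`, in all codimensions. If they do not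
hold then the dimension `t_n` of `CH^(dn)_hom(X^n × X^n)_ℚ` satisfies, for all `n`,
`t_n + b ^ (2 n) ≥ (b + 2) ^ (2 n) / multichoose ((b + 2) ^ 2) n`.

For example `X` is a surface with `p_g = q = 0`, and `b = b_2 + 2`.

The theorem rests on the gap theorem `Pool.Agent.K3h8.GG.final` of helper8
(`MP_868bb7_ag.PermutationRelations`) for the dimension of the algebra of the permutations. Here it is
compared with the realisation, in which the permutations act on `H(X)^(⊗ n)` by rational matrices and
so span a space of dimension at most `b ^ (2 n)` (counting argument of helper33): so the rest consists of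
homologically trivial cycles. If `H(X)` is algebraic, the class of the diagonal is the class of a sum
`∑ a_j × b_j`; if `M` is Kimura-finite, homologically trivial endomorphisms are nilpotent and so
`∑ a_j × b_j` is invertible. So the identity of `M` factors through a sum of Tate objects, and the same
holds for all tensor powers of `M`.
-/

set_option autoImplicit false

open CategoryTheory Limits MonoidalCategory
open Pool.Agent.Y112.SR Pool.Agent.Y112.KD Pool.Agent.R905 Pool.Agent.K3h8.GG Pool.Agent.K3h70.AC

universe v u w

namespace Pool.Agent.Results.MP_32dfd1_ag.PermutationGap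

theorem result {C : Type u} [Category.{v} C] [Preadditive C] [Linear ℚ C] [MonoidalCategory C]
    [MonoidalPreadditive C] [MonoidalLinear ℚ C] [SymmetricCategory C] [RightRigidCategory C]
    [IsIdempotentComplete C] {K : Type w} [Field K] (R : SuperRealisation C K) (hU : UnitQ C)
    {M : C} (hM : R.par M = 𝟙 _) :
    -- (1) a variety without odd cohomology
    ((SlowGrowth R M ∨ ∃ n, n ≤ 2 * realDim R M + 3 ∧ permDim M n < n.factorial) →
      ∀ (n : ℕ) (f : End (tp M n)), R.H.map (f : tp M n ⟶ tp M n) = 0 → IsNilpotent f) ∧
    -- (2) a variety whose cohomology is spanned by algebraic classes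
    ∀ 𝒯 : C → Prop, IsTate R 𝒯 → AlgebraicCohomology R 𝒯 M →
      (AllPowersInjective R 𝒯 M ↔ ∃ n, n ≤ 2 * realDim R M + 3 ∧ permDim M n < n.factorial) ∧
      (AllPowersInjective R 𝒯 M ↔ SlowGrowth R M) ∧
      (¬ AllPowersInjective R 𝒯 M → ∀ n A : ℕ, TrivDimLE R M n A →
        (realDim R M + 2) ^ (2 * n) ≤
          (A + realDim R M ^ (2 * n)) * Nat.multichoose ((realDim R M + 2) ^ 2) n) := by
  refine ⟨?_, ?_⟩
  · intro h n
    have hK : IsKimuraFinite M := by
      rcases h with h | h
      · exact kimura_of_slow hU hM h
      · exact (rel_iff hU hM).2 h
    exact tp_homNil hU hM hK n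
  · intro 𝒯 h𝒯 hA
    have h1 : AllPowersInjective R 𝒯 M ↔ IsKimuraFinite M :=
      ⟨fun h => kimura_of_slow hU hM (slow_of_inj h𝒯 h), inj_of_kimura hU h𝒯 hA⟩
    refine ⟨h1.trans (rel_iff hU hM), ⟨slow_of_inj h𝒯, fun h => h1.2 (kimura_of_slow hU hM h)⟩, ?_⟩
    intro h n A hT
    exact lower hU hM (fun hk => h (h1.2 hk)) n A hT

end Pool.Agent.Results.MP_32dfd1_ag.PermutationGap
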