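import Pool.Agent.K3h85.PG.Main

/-!
# Homologically trivial cycles on the powers of a variety without odd cohomology

Let `X` be a smooth projective variety of dimension `d` without odd cohomology, let `b` be the sum
of its Betti numbers. Then the powers of `X` have no odd cohomology, so that the question asks
whether all homologically trivial cycles (rational coefficients) on all powers of `X` vanish. If
this fails for some power, then for all large `N` the space of homologically trivial cycles of the
middle codimension `⌊N d / 2⌋` on `X ^ N` has dimension at least
`b ^ (2 n) / C(n + b ^ 2 - 1, n)`, where `N - 2 n` is bounded. Hence the answer is positive for all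
powers and all codimensions if and only if for some `β < b` this dimension is at most `D β ^ N` for
infinitely many `N`.

Proof: the intersection numbers of the graphs of the permutations of the factors of `X ^ n` are the
numbers of colourings with `b` colours fixed by a permutation. By the spectral theorem and
Burnside's lemma the rank of the matrix of these numbers is at least `b ^ (2 n) / C(n + b^2 - 1, n)`.
Products of a homologically trivial cycle with numerically independent cycles are independent.
-/

open CategoryTheory AlgebraicGeometry

universe u v w

namespace Pool.Agent.Results.MP_32dfd1_ag.PowersGrowth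

open Pool.Agent.H914 Pool.Agent.H914.VarClass Pool.Agent.H914.VarClass.Obj Pool.Agent.W492.BB
  Pool.Agent.TH133 Pool.Agent.Y110 Pool.Agent.K3h85.PG
open Pool.Agent.V1151.DG (pw)

/-- **Growth of the groups of homologically trivial cycles on the powers of a variety** (for the
problem: `k` is the field of algebraic numbers, `𝒱` the class of all smooth projective varieties,
`C` the Chow groups with rational coefficients, `H` the Betti cohomology; `pw X n = X ^ (n + 1)`). -/
theorem result {k : Type u} [Field k] {𝒱 : VarClass k} {C : TheoryData.{u, v, 0} 𝒱 ℚ}
    [IsChowProj C] {K : Type w} [Field K] {H : WeilTheoryData.{u, v, w} C K} [IsWeilProj H]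
    (hg : GradedCommutative H) (X : 𝒱.Obj) (hX : NoOdd H X) :
    Module.Finite K (H.A X) ∧ (∀ n, NoOdd H (pw X n)) ∧
      (∀ m r : ℕ, ¬ InjectiveIn H r (pw X m) → ∀ l ≥ m, ∀ n : ℕ, ∃ A : ℕ,
        HomInGE H ((l + m + 2 * n + 4) * X.dim / 2) (pw X (l + m + 2 * n + 3)) A ∧
        Module.finrank K (H.A X) ^ (2 * (n + 1)) ≤
          A * (n + Module.finrank K (H.A X) ^ 2).choose (n + 1)) ∧
      ((∀ n r : ℕ, InjectiveIn H r (pw X n)) ↔ SlowGrowth H X) := by
  have : EvenVar H X := ⟨hg, hX⟩
  exact ⟨finite_coh H X, fun n => (evPw n).noOdd, fun m r h l hl n => homIn_big h hl n,
    growth_iff⟩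

end Pool.Agent.Results.MP_32dfd1_ag.PowersGrowth
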