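import Pool.Agent.K3h30.TO.Main

/-!
# Test objects for the vanishing of homologically trivial cycles on all powers of a variety

The question asks whether `CH^r_hom(Y)_ℚ = 0` for smooth projective `Y` over the algebraic numbers with
`H^(2r-1)(Y) = 0`. Let `X` be a smooth projective variety whose cohomology is spanned by the classes of
algebraic cycles (for example a surface with `p_g = q = 0`). No power of `X` has odd cohomology, so the
question predicts that all homologically trivial cycles on all powers of `X` are torsion.

`C` is a `ℚ`-linear, idempotent complete, rigid symmetric monoidal category whose unit object has the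
endomorphisms `ℚ` (`UnitQ`), with a realisation `R` in finite-dimensional super vector spaces over a
field `K` (`SuperRealisation`). For the problem: `C` is the category of Chow motives over the algebraic
numbers with rational coefficients, `R` is singular cohomology with its parity, and `M = h(X)`; `𝒯`
consists of the powers of the Lefschetz motive (`IsTate`), `AlgebraicCohomology R 𝒯 M` says that the
cohomology of `X` is algebraic, and `AllPowersInjective R 𝒯 M` says that all homologically trivial cycles
on all powers of `X` vanish in the Chow groups with rational coefficients.

`IsTest M T`: the object `T` is obtained from `M` by finitely many steps `S ↦ S'` of the following kinds: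
`S'` is a nonzero value of a Schur functor at `S`; `S'` is a symmetric or exterior power of `S` of
positive order; `S' = S ⊗ N` is a nonzero tensor product with an arbitrary object `N`; `S'` is an object
with the direct summand `S` (these are the steps of `Built`); `S' = (S ⊗ S^∨)^G` for an action of a
finite group `G` on `S` (for instance, up to a Tate twist, the motive of the quotient `(X × X) / G` by
the diagonal action of a finite group of automorphisms of `X`).

Theorem. (1) Let `X` be any smooth projective variety without odd cohomology. If one of the conditions
(b), (b'), (c), (d) holds then the homologically trivial correspondences of degree `0` from `X^n` to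
itself are nilpotent, for all `n`.
(2) If the cohomology of `X` is spanned by algebraic classes, the following are equivalent:
(a) all homologically trivial cycles on all powers of `X` vanish, rationally;
(b) some test object `T` for `M` is Kimura-finite;
(b') the identity of some test object `T` for `M` is a finite sum of compositions
`T ⟶ N i ⟶ N' i ⟶ T`, with arbitrary objects `N i`, `N' i`, whose middle factors have a vanishing
exterior or a vanishing symmetric power (for `T = M`: the diagonal of `X` is such a sum; for example a
sum of products `a × b` and of correspondences with a vanishing exterior or symmetric power);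
(c) for some test object `T` for `M` with purely even or purely odd realisation of dimension `b` the
`n!` permutations of the factors of `T ⊗ ⋯ ⊗ T` are linearly dependent for one `n ≤ 2 b + 3`;
(d) for some test object `T` for `M` with purely even or purely odd realisation of dimension `b` the
permutations of the factors of the `n`-th tensor power of `T` span a space of dimension `≤ D β ^ n`,
`β < (b + 2) ^ 2`, for infinitely many `n`.
(3) In this case, if `T` is any nonzero value of iterated Schur functors at `M`, (a) for `X` is equivalent to (a) for `T`
(all homologically trivial cycles on all powers of the motive `T` vanish), to (b') and the relation in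
(c) for this `T`, and to a slow growth of the homologically trivial endomorphisms of the powers of `T`.

For `T = M` the equivalences are `MP_32dfd1_ag.PermutationGap` of helper70. The descent of
Kimura-finiteness from `T` to `M` is the theorem of helper8 (`MP_6e5bed_ag.SchurFunctors`), (c) and (d)
use his gap theorem (`MP_868bb7_ag.PermutationRelations`), (b') the theorem of helper42
(`MP_6e5bed_ag.SumsOfSmallMorphisms`), and the steps `(S ⊗ S^∨)^G` the theorem of helper63
(`MP_868bb7_ag.DiagonalQuotients`).
-/

set_option autoImplicit false

open CategoryTheory Limits MonoidalCategory
open Pool.Agent.Y112.SR Pool.Agent.Y112.KD Pool.Agent.R905 Pool.Agent.K3h8.GG Pool.Agent.K3h70.AC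
open Pool.Agent.K3h30.TO

universe v u w

namespace Pool.Agent.Results.MP_32dfd1_ag.TestObjects

theorem result {C : Type u} [Category.{v} C] [Preadditive C] [Linear ℚ C] [MonoidalCategory C]
    [MonoidalPreadditive C] [MonoidalLinear ℚ C] [SymmetricCategory C] [RightRigidCategory C]
    [IsIdempotentComplete C] {K : Type w} [Field K] (R : SuperRealisation C K) (hU : UnitQ C)
    {M : C} (hM : R.par M = 𝟙 _) :
    -- (1) a variety without odd cohomology
    (∀ T, IsTest M T → (IsKimuraFinite T ∨ HasSmallSum T ∨ HasRelation R T ∨
        HasSlowPermutations R T ∨ (SchurChain M T ∧ SlowGrowth R T)) →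
      ∀ (n : ℕ) (f : End (tp M n)), R.H.map (f : tp M n ⟶ tp M n) = 0 → IsNilpotent f) ∧
    -- (2) a variety whose cohomology is spanned by algebraic classes: one test object of any kind
    (∀ 𝒯 : C → Prop, IsTate R 𝒯 → AlgebraicCohomology R 𝒯 M →
      (AllPowersInjective R 𝒯 M ↔ ∃ T, IsTest M T ∧ IsKimuraFinite T) ∧
      (AllPowersInjective R 𝒯 M ↔ ∃ T, IsTest M T ∧ HasSmallSum T) ∧
      (AllPowersInjective R 𝒯 M ↔ ∃ T, IsTest M T ∧ HasRelation R T) ∧
      (AllPowersInjective R 𝒯 M ↔ ∃ T, IsTest M T ∧ HasSlowPermutations R T)) ∧
    -- (3) such a variety: each value of Schur functors is a test object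
    (∀ 𝒯 : C → Prop, IsTate R 𝒯 → AlgebraicCohomology R 𝒯 M → ∀ T, SchurChain M T →
      (AllPowersInjective R 𝒯 M ↔ AllPowersInjective R 𝒯 T) ∧
      (AllPowersInjective R 𝒯 M ↔ HasSmallSum T) ∧
      (AllPowersInjective R 𝒯 M ↔ HasRelation R T) ∧
      (AllPowersInjective R 𝒯 M ↔ SlowGrowth R T)) :=
  ⟨fun _ hT h n f hf => nil_of_test hU hM hT h n f hf, fun _ h𝒯 hA => tests hU hM h𝒯 hA,
    fun _ h𝒯 hA _ hT => chain_iff hU hM h𝒯 hA hT⟩

end Pool.Agent.Results.MP_32dfd1_ag.TestObjects
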